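import Pool.Agent.Lib.MP_fed0c4_co.Cub.Labels

/-!
Any five involutions of a finite group are bounded words in three involutions of a finite group
that maps onto the fixed permutation group on 65 points.
-/

namespace Pool.Agent.Lib.MP_fed0c4_co.Cub

/-- positions of the five involutions -/
def lp (j : Fin 3) (p : Fin 65) : Option (Fin 5) :=
  if j = 0 then (if p = 6 then some 0 else if p = 10 then some 1 else if p = 14 then some 2
    else if p = 18 then some 3 else if p = 22 then some 4 else none) else none

/-- put a letter in front of a word, with cancellation -/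
def push : Option (Fin 5) → List (Fin 5) → List (Fin 5)
  | none, l => l
  | some i, [] => [i]
  | some i, a :: l => if a = i then l else i :: a :: l

/-- symbolic evaluation of a word, last letter first -/
def run (w : List (Fin 3)) (p : Fin 65) : Fin 65 × List (Fin 5) :=
  w.foldr (fun j x => (fn j x.1, push (lp j x.1) x.2)) (p, [])

/-- a conjugate of the first generator by a rotation -/
def dw (j : ℕ) : List (Fin 3) :=
  (List.replicate j [1, 2]).flatten ++ 0 :: (List.replicate j [2, 1]).flatten

/-- the word for the `i`-th involution -/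
def ew (i : Fin 5) : List (Fin 3) := 0 :: dw (3 + 2 * i) ++ 0 :: dw (3 + 2 * i)

theorem lp_fn : ∀ j p, lp j (fn j p) = lp j p := by decide +kernel

theorem ew_length : ∀ i, (ew i).length ≤ 92 := by decide +kernel

theorem run_ew : ∀ i p, run (ew i) p = (p, if p ≤ 1 then [i] else []) := by decide +kernel

theorem run_r8 : ∀ p, run [0, 1, 0, 1, 0, 1, 0, 1].reverse p = (p, []) := by decide +kernel

theorem run_r8' : ∀ p, run [1, 0, 1, 0, 1, 0, 1, 0].reverse p = (p, []) := by decide +kernel

theorem run_r12 : ∀ p, run [0, 2, 1, 0, 1, 2, 0, 2, 1, 0, 1, 2].reverse p = (p, []) := by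
  decide +kernel

theorem go_eq {K : Type} [Group K] (y : Fin 3 → K) (w : List (Fin 3)) (g : K) :
    go y g w = (w.reverse.map y).prod * g := by
  induction w generalizing g with
  | nil => simp [go]
  | cons a w ih => simp [go, ih, mul_assoc]

variable {G : Type} [Group G] (c : Fin 5 → G) (hc : ∀ i, c i * c i = 1)

include hc in
theorem prod_push (o : Option (Fin 5)) (l : List (Fin 5)) :
    ((push o l).map c).prod = o.elim 1 c * (l.map c).prod := by
  rcases o with _ | i
  · simp [push]
  · rcases l with _ | ⟨a, l⟩
    · simp [push]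
    · by_cases h : a = i
      · simp [push, h, ← mul_assoc, hc]
      · simp [push, h]

/-- the three involutions upstairs -/
def big (j : Fin 3) : Equiv.Perm (Fin 65 × G) :=
  Function.Involutive.toPerm (fun x => (fn j x.1, (lp j x.1).elim 1 c * x.2)) (by
    rintro ⟨p, g⟩
    simp only [fn_fn, lp_fn, ← mul_assoc]
    rcases lp j p with _ | i <;> simp [hc])

theorem big_word (w : List (Fin 3)) (p : Fin 65) (g : G) :
    (w.map (big c hc)).prod (p, g) = ((run w p).1, ((run w p).2.map c).prod * g) := by
  induction w with
  | nil => simp [run]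
  | cons j w ih =>
    rw [List.map_cons, List.prod_cons, Equiv.Perm.mul_apply, ih]
    show (_, _) = (_, ((push _ _).map c).prod * g)
    rw [prod_push c hc, mul_assoc]
    rfl

theorem bar_word (w : List (Fin 3)) (p : Fin 65) : (w.map bar).prod p = (run w p).1 := by
  induction w with
  | nil => rfl
  | cons j w ih => rw [List.map_cons, List.prod_cons, Equiv.Perm.mul_apply, ih]; rfl

/-- the three generators -/
def gen3 (j : Fin 3) : Equiv.Perm (Fin 65 × G) × Equiv.Perm (Fin 65) := (big c hc j, bar j)

theorem gen3_word (w : List (Fin 3)) :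
    (w.map (gen3 c hc)).prod = ((w.map (big c hc)).prod, (w.map bar).prod) := by
  induction w with
  | nil => rfl
  | cons j w ih => simp only [List.map_cons, List.prod_cons, ih]; rfl

theorem gen3_go (w : List (Fin 3)) (h : ∀ p, run w.reverse p = (p, [])) :
    go (gen3 c hc) 1 w = 1 := by
  rw [go_eq, mul_one, gen3_word]
  refine Prod.ext (Equiv.ext fun ⟨p, g⟩ => ?_) (Equiv.ext fun p => ?_)
  · simp only [big_word, h]
    simp
  · simp only [bar_word, h]
    rfl

theorem gen3_flat (L : List (Fin 5)) :
    ((L.flatMap ew).map (gen3 c hc)).prod = 1 ↔ (L.map c).prod = 1 := by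
  have key : ((L.flatMap ew).map bar).prod = 1 ∧ ∀ p g,
      ((L.flatMap ew).map (big c hc)).prod (p, g) =
        (p, (if p ≤ 1 then (L.map c).prod else 1) * g) := by
    induction L with
    | nil => simp
    | cons i L ih =>
      simp only [List.flatMap_cons, List.map_append, List.prod_append, ih.1, mul_one,
        Equiv.Perm.mul_apply, ih.2, big_word, run_ew, List.map_cons, List.prod_cons]
      refine ⟨Equiv.ext fun p => by rw [bar_word, run_ew]; rfl, fun p g => ?_⟩
      split_ifs <;> simp [mul_assoc]
  rw [gen3_word, key.1]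
  constructor
  · intro h
    have h1 := key.2 0 1
    rw [show ((L.flatMap ew).map (big c hc)).prod = 1 from congrArg Prod.fst h] at h1
    simpa using (congrArg Prod.snd h1).symm
  · intro h
    refine Prod.ext (Equiv.ext fun ⟨p, g⟩ => ?_) rfl
    simp only [key.2, h]
    simp

theorem Model.flat {I J P Q V : Type} [Group P] [Group Q] {s : I → P} {c : J → Q} {a n : ℕ}
    {σ : I → Equiv.Perm V} (hσ : Model s (a * n) σ) (E : J → List I) (hE : ∀ i, (E i).length ≤ a)
    (h : ∀ L : List J, ((L.flatMap E).map s).prod = 1 ↔ (L.map c).prod = 1) :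
    Model c n fun i => ((E i).map σ).prod := by
  intro v L hL
  have h1 : ∀ L : List J, (L.flatMap E).length ≤ a * L.length ∧
      (L.map fun i => ((E i).map σ).prod).prod = ((L.flatMap E).map σ).prod := by
    intro L
    induction L with
    | nil => simp
    | cons i L ih =>
      have := hE i
      simp only [List.flatMap_cons, List.length_append, List.length_cons, List.map_cons,
        List.prod_cons, List.map_append, List.prod_append, ih.2, and_true, mul_add]
      omega
  rw [(h1 L).2, hσ v _ ((h1 L).1.trans (Nat.mul_le_mul_left _ hL)), h]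

include hc in
theorem le_pow_of_five [Finite G] (n N : ℕ) (hn : 1 ≤ n)
    (hN : ∀ (V : Type) [Finite V] [Nonempty V] (ρ : Fin 5 → Equiv.Perm V), Model c n ρ →
      N ≤ Nat.card V) (d r : ℕ) (hd : 3 ≤ d) (hr : 92 * n + 22 ≤ r) :
    N ≤ (d + 1) ^ (maxMinDiam d r).toNat :=
  le_pow_maxMinDiam (gen3 c hc)
    (fun j => Prod.ext (Equiv.ext (big c hc j).left_inv) (Equiv.ext (fn_fn j)))
    (MonoidHom.snd _ _) (fun _ => rfl) (gen3_go c hc _ run_r8) (gen3_go c hc _ run_r8')
    (gen3_go c hc _ run_r12) (92 * n) N (by omega)
    (fun V _ _ _ hσ => hN V _ (hσ.flat ew ew_length (gen3_flat c hc))) d r hd hr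

/-- conjugates of the second generator by translations -/
def dv : ℕ → List (Fin 5)
  | 0 => [1]
  | a + 1 => 3 :: 2 :: dv a ++ [2, 3]

theorem dv_length (a : ℕ) : (dv a).length = 4 * a + 1 := by
  induction a with
  | zero => rfl
  | succ a ih => simp [dv, ih]; omega

theorem le_pow_of_many {J : Type} [Finite J] [Nonempty J] [Finite G] (c : J → G)
    (hc : ∀ i, c i * c i = 1) (n N : ℕ) (hn : 1 ≤ n)
    (hN : ∀ (V : Type) [Finite V] [Nonempty V] (ρ : J → Equiv.Perm V), Model c n ρ →
      N ≤ Nat.card V) (d r : ℕ) (hd : 3 ≤ d) (hr : 92 * (8 * Nat.card J * n) + 22 ≤ r) :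
    N ≤ (d + 1) ^ (maxMinDiam d r).toNat := by
  classical
  have hJ : 0 < Nat.card J := Nat.card_pos
  set m := Nat.card J with hm
  have : NeZero m := ⟨hJ.ne'⟩
  let e : J ≃ ZMod m := (Finite.equivFin J).trans (ZMod.finEquiv m).toEquiv
  let y0 : Equiv.Perm (Bool × ZMod m × G) := Function.Involutive.toPerm
    (fun x => (if x.2.1 = 0 then !x.1 else x.1, x.2)) (fun x => by by_cases h : x.2.1 = 0 <;> simp [h])
  let y1 : Equiv.Perm (Bool × ZMod m × G) := Function.Involutive.toPerm
    (fun x => (x.1, x.2.1, (if x.1 then 1 else c (e.symm x.2.1)) * x.2.2))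
    (fun ⟨b, p, g⟩ => by cases b <;> simp [← mul_assoc, hc])
  let y2 : Equiv.Perm (Bool × ZMod m × G) := Function.Involutive.toPerm
    (fun x => (x.1, 1 - x.2.1, x.2.2)) (fun x => by simp)
  let y3 : Equiv.Perm (Bool × ZMod m × G) := Function.Involutive.toPerm
    (fun x => (x.1, -x.2.1, x.2.2)) (fun x => by simp)
  let y : Fin 5 → Equiv.Perm (Bool × ZMod m × G) := ![y0, y1, y2, y3, 1]
  have a0 : ∀ b p g, y 0 (b, p, g) = (if p = 0 then !b else b, p, g) := fun _ _ _ => rfl
  have a1 : ∀ b p g, y 1 (b, p, g) = (b, p, (if b then 1 else c (e.symm p)) * g) :=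
    fun _ _ _ => rfl
  have a2 : ∀ b p g, y 2 (b, p, g) = (b, 1 - p, g) := fun _ _ _ => rfl
  have a3 : ∀ b p g, y 3 (b, p, g) = (b, -p, g) := fun _ _ _ => rfl
  have hy : ∀ i, y i * y i = 1 := by
    intro i
    fin_cases i
    exacts [Equiv.ext y0.left_inv, Equiv.ext y1.left_inv, Equiv.ext y2.left_inv,
      Equiv.ext y3.left_inv, mul_one _]
  have hdv : ∀ (a : ℕ) b p g, ((dv a).map y).prod (b, p, g) =
      (b, p, (if b then 1 else c (e.symm (p + a))) * g) := by
    intro a
    induction a with
    | zero => simp [dv, a1]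
    | succ a ih =>
      intro b p g
      simp only [dv, List.cons_append, List.map_cons, List.map_append, List.prod_cons,
        List.prod_append, List.map_nil, List.prod_nil, mul_one, Equiv.Perm.mul_apply, a2, a3, ih]
      rw [show 1 - -p + (a : ZMod m) = p + (a + 1 : ℕ) by push_cast; ring]
      simp
  let E : J → List (Fin 5) := fun j => 0 :: dv (e j).val ++ 0 :: dv (e j).val
  have hE : ∀ j b p g, ((E j).map y).prod (b, p, g) = (b, p, (if p = 0 then c j else 1) * g) := by
    intro j b p g
    simp only [E, List.cons_append, List.map_cons, List.map_append, List.prod_cons,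
      List.prod_append, Equiv.Perm.mul_apply, a0, hdv, ZMod.natCast_val, ZMod.cast_id', id]
    by_cases h : p = 0 <;> cases b <;> simp [h, ← mul_assoc, hc]
  refine le_pow_of_five y hy (8 * m * n) N (Nat.mul_pos (by omega) hn)
    (fun V _ _ _ hσ => hN V _ (hσ.flat E (fun j => ?_) fun L => ?_)) d r hd hr
  · have := (e j).val_lt
    simp only [E, List.length_append, List.length_cons, dv_length]
    omega
  · have key : ∀ b p g, ((L.flatMap E).map y).prod (b, p, g) =
        (b, p, (if p = 0 then (L.map c).prod else 1) * g) := by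
      induction L with
      | nil => simp
      | cons i L ih =>
        intro b p g
        simp only [List.flatMap_cons, List.map_append, List.prod_append, Equiv.Perm.mul_apply, ih,
          hE, List.map_cons, List.prod_cons]
        split_ifs <;> simp [mul_assoc]
    constructor
    · intro h
      have h1 := key true 0 1
      rw [h] at h1
      simpa using h1.symm
    · intro h
      refine Equiv.ext fun ⟨b, p, g⟩ => ?_
      simp [key, h]

end Pool.Agent.Lib.MP_fed0c4_co.Cub
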