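import Pool.Agent.Lib.MP_fed0c4_co.Cub.Rig

/-!
A graph with the balls of a rigid Cayley graph carries three involutions that satisfy exactly
the short relations of the group, and the resulting lower bound for the minimal diameter.
-/

namespace Pool.Agent.Lib.MP_fed0c4_co.Cub

open SimpleGraph

theorem exists_charts {G V : Type} (X : SimpleGraph G) (o : G) (r : ℕ) (H : SimpleGraph V)
    (hH : ∀ v, BallIso H v r (X.induce (ballSet X o r)) ⟨o, self_mem_ballSet _ _ _⟩) :
    ∃ (Φ : V → V → G) (Ψ : V → G → V), (∀ v, Φ v v = o) ∧ (∀ v, Ψ v o = v) ∧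
      (∀ v, ∀ g ∈ ballSet X o r, Φ v (Ψ v g) = g) ∧
      (∀ v, ∀ w ∈ ballSet H v r, Ψ v (Φ v w) = w) ∧
      (∀ v, ∀ g ∈ ballSet X o r, ∀ g' ∈ ballSet X o r, X.Adj g g' → H.Adj (Ψ v g) (Ψ v g')) ∧
      (∀ v, ∀ w ∈ ballSet H v r, ∀ w' ∈ ballSet H v r, H.Adj w w' →
        X.Adj (Φ v w) (Φ v w')) := by
  classical
  choose φ hv hφ using hH
  let Φ : V → V → G := fun v w => if h : w ∈ ballSet H v r then (φ v ⟨w, h⟩ : G) else o
  let Ψ : V → G → V := fun v g =>
    if h : g ∈ ballSet X o r then ((φ v).symm ⟨g, h⟩ : ballSet H v r) else v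
  have hΦ : ∀ v (w : ballSet H v r), Φ v w = φ v w := fun v w => dif_pos w.2
  have hΨ : ∀ v (g : ballSet X o r), Ψ v g = ((φ v).symm g : ballSet H v r) :=
    fun v g => dif_pos g.2
  refine ⟨Φ, Ψ, fun v => ?_, fun v => ?_, fun v g hg => ?_, fun v w hw => ?_,
    fun v g hg g' hg' h => ?_, fun v w hw w' hw' h => ?_⟩
  · rw [hΦ v ⟨v, hv v⟩, hφ]
  · rw [hΨ v ⟨o, self_mem_ballSet _ _ _⟩, ← hφ v, RelIso.symm_apply_apply]
  · rw [hΨ v ⟨g, hg⟩, hΦ, RelIso.apply_symm_apply]
  · rw [hΦ v ⟨w, hw⟩, hΨ, RelIso.symm_apply_apply]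
  · rw [hΨ v ⟨g, hg⟩, hΨ v ⟨g', hg'⟩]
    exact (φ v).symm.map_adj_iff.mpr (show (X.induce (ballSet X o r)).Adj ⟨g, hg⟩ ⟨g', hg'⟩ from h)
  · rw [hΦ v ⟨w, hw⟩, hΦ v ⟨w', hw'⟩]
    exact (φ v).map_adj_iff.mpr (show (H.induce (ballSet H v r)).Adj ⟨w, hw⟩ ⟨w', hw'⟩ from h)

theorem exists_sigma {G V : Type} [Group G] {e : ℕ} {t : Fin 3 ⊕ Fin e → G} (ht : Gens t)
    (r : ℕ) (hr : 24 ≤ r) (H : SimpleGraph V)
    (hH : ∀ v, BallIso H v r ((cay t ht.sq ht.ne).induce (ballSet (cay t ht.sq ht.ne) 1 r))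
      ⟨1, self_mem_ballSet _ _ _⟩) :
    ∃ σ : Fin 3 → Equiv.Perm V, ∀ (v : V) (L : List (Fin 3)), L.length + 22 ≤ r →
      ((L.map σ).prod v = v ↔ (L.map fun j => t (.inl j)).prod = 1) := by
  set X := cay t ht.sq ht.ne with hX
  obtain ⟨Φ, Ψ, h1, h2, h3, h4, h5, h6⟩ := exists_charts X 1 r H hH
  let σ : Fin 3 → V → V := fun j u => Ψ u (t (.inl j))
  have main : ∀ v (L : List (Fin 3)), L.length + 22 ≤ r →
      (L.map fun j => t (.inl j)).prod ∈ ballSet X 1 L.length ∧
      L.foldr σ v = Ψ v (L.map fun j => t (.inl j)).prod := by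
    intro v L
    induction L with
    | nil => exact fun _ => ⟨self_mem_ballSet X 1 0, (h2 v).symm⟩
    | cons j L ih =>
      intro hL
      simp only [List.length_cons] at hL
      obtain ⟨a1, a2⟩ := ih (by omega)
      simp only [List.foldr_cons, List.map_cons, List.prod_cons, List.length_cons]
      refine ⟨adj_mem_ballSet a1 ⟨.inl j, rfl⟩, ?_⟩
      rw [a2]
      set x := (L.map fun j => t (.inl j)).prod
      set u := Ψ v x with hu
      let D : ℕ → Set G := fun k => {y | y ∈ ballSet X 1 (L.length + k) ∧ Ψ v y ∈ ballSet H u k}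
      have hadj : ∀ k < 22, ∀ y ∈ D k, ∀ i, H.Adj (Ψ v y) (Ψ v (t i * y)) := fun k hk y hy i =>
        h5 v _ (ballSet_mono X 1 (by omega) hy.1) _
          (ballSet_mono X 1 (by omega) (adj_mem_ballSet hy.1 (show X.Adj y (t i * y) from ⟨i, rfl⟩)))
          ⟨i, rfl⟩
      have hs : ∀ k < 22, ∀ y ∈ D k, ∀ i, t i * y ∈ D (k + 1) := fun k hk y hy i =>
        ⟨adj_mem_ballSet hy.1 ⟨i, rfl⟩, adj_mem_ballSet hy.2 (hadj k hk y hy i)⟩
      have hx : x ∈ D 0 := ⟨a1, self_mem_ballSet H u 0⟩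
      have key := rigid ht D (fun y => Φ u (Ψ v y)) hs (fun k hk l hl y hy z hz h => by
          have b := congrArg (Ψ u) h
          rw [h4 u _ (ballSet_mono H u (by omega) hy.2),
            h4 u _ (ballSet_mono H u (by omega) hz.2)] at b
          have c := congrArg (Φ v) b
          rwa [h3 v _ (ballSet_mono X 1 (by omega) hy.1),
            h3 v _ (ballSet_mono X 1 (by omega) hz.1)] at c)
        (fun k hk y hy i => h6 u _ (ballSet_mono H u (by omega) hy.2) _
          (ballSet_mono H u (by omega) (hs k hk y hy i).2) (hadj k hk y hy i)) hx j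
      rw [← hu, h1, mul_one] at key
      exact (congrArg (Ψ u) key).symm.trans
        (h4 u _ (ballSet_mono H u (by omega) (hs 0 (by omega) x hx _).2))
  have hfix : ∀ v (L : List (Fin 3)), L.length + 22 ≤ r →
      (L.foldr σ v = v ↔ (L.map fun j => t (.inl j)).prod = 1) := by
    intro v L hL
    obtain ⟨a1, a2⟩ := main v L hL
    rw [a2]
    refine ⟨fun h => ?_, fun h => by rw [h, h2]⟩
    have := congrArg (Φ v) h
    rwa [h3 v _ (ballSet_mono X 1 (by omega) a1), h1] at this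
  have hinv : ∀ j, Function.Involutive (σ j) := fun j u =>
    (hfix u [j, j] (by simpa using hr)).mpr (by simp [ht.sq])
  refine ⟨fun j => (hinv j).toPerm, fun v L hL => ?_⟩
  rw [← hfix v L hL]
  have : ∀ L : List (Fin 3), (L.map fun j => (hinv j).toPerm).prod v = L.foldr σ v := by
    intro L
    induction L with
    | nil => rfl
    | cons j L ih => rw [List.map_cons, List.prod_cons, Equiv.Perm.mul_apply, ih]; rfl
  rw [this]

/-- Permutations of `V` with the same short relations, at every point, as `s`. -/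
def Model {I P V : Type} [Group P] (s : I → P) (n : ℕ) (σ : I → Equiv.Perm V) : Prop :=
  ∀ (v : V) (L : List I), L.length ≤ n → ((L.map σ).prod v = v ↔ (L.map s).prod = 1)

theorem exists_gens {P : Type} [Group P] [Finite P] (s : Fin 3 → P) (hsq : ∀ j, s j * s j = 1)
    (q : P →* Equiv.Perm (Fin 65)) (hq : ∀ j, q (s j) = bar j)
    (r8 : go s 1 [0, 1, 0, 1, 0, 1, 0, 1] = 1) (r8' : go s 1 [1, 0, 1, 0, 1, 0, 1, 0] = 1)
    (r12 : go s 1 [0, 2, 1, 0, 1, 2, 0, 2, 1, 0, 1, 2] = 1) (e : ℕ) :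
    ∃ (G : Type) (_ : Group G) (_ : Finite G) (t : Fin 3 ⊕ Fin e → G), Gens t ∧
      Subgroup.closure (Set.range t) = ⊤ ∧
      ∀ L : List (Fin 3), (L.map fun j => t (.inl j)).prod = 1 ↔ (L.map s).prod = 1 := by
  classical
  let Γ := P × Multiplicative (Fin e → ZMod 2)
  let gen : Fin 3 ⊕ Fin e → Γ :=
    Sum.elim (fun j => (s j, 1)) (fun a => (1, Multiplicative.ofAdd (Pi.single a 1)))
  let G := Subgroup.closure (Set.range gen)
  let t : Fin 3 ⊕ Fin e → G := fun i => ⟨gen i, Subgroup.subset_closure ⟨i, rfl⟩⟩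
  have hb1 : ∀ j, bar j ≠ 1 := fun j h => by
    have : ∀ j, ∃ p, fn j p ≠ p := by decide +kernel
    obtain ⟨p, hp⟩ := this j
    exact hp (congrArg (fun σ : Equiv.Perm (Fin 65) => σ p) h)
  have hb2 : Function.Injective bar := fun j j' h => by
    have : ∀ j j', fn j 1 = fn j' 1 → j = j' := by decide +kernel
    exact this j j' (congrArg (fun σ : Equiv.Perm (Fin 65) => σ 1) h)
  have hs1 : ∀ j, s j ≠ 1 := fun j h => hb1 j (by rw [← hq, h, map_one])
  have hsingle : ∀ a : Fin e, (Pi.single a 1 : Fin e → ZMod 2) ≠ 0 := fun a h => by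
    simpa using congrFun h a
  let ι := MonoidHom.inl P (Multiplicative (Fin e → ZMod 2))
  have hι : Function.Injective ι := fun a b h => congrArg Prod.fst h
  have hgo : ∀ w, go s 1 w = 1 → go (fun j => t (.inl j)) 1 w = 1 := by
    intro w h
    apply G.subtype_injective
    have := congrArg ι h
    rw [map_go, map_one] at this
    rw [map_go, map_one]
    exact this
  refine ⟨G, inferInstance, inferInstance, t, ⟨?_, ?_, ?_, ?_, ?_, hgo _ r8, hgo _ r8',
    hgo _ r12⟩, ?_, fun L => ?_⟩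
  · rintro (j | a)
    · exact Subtype.ext (Prod.ext (hsq j) (mul_one _))
    · refine Subtype.ext (Prod.ext (mul_one _) ?_)
      show Multiplicative.ofAdd (Pi.single a 1 + Pi.single a 1 : Fin e → ZMod 2) = 1
      rw [← Pi.single_add, CharTwo.add_self_eq_zero, Pi.single_zero]
      rfl
  · rintro (j | a) h
    · exact hs1 j (congrArg (fun g : G => g.1.1) h)
    · exact hsingle a (congrArg (fun g : G => g.1.2) h)
  · rintro (j | a) (j' | a') h
    · rw [hb2 (show bar j = bar j' by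
        rw [← hq, ← hq]; exact congrArg (fun g : G => q g.1.1) h)]
    · exact absurd (congrArg (fun g : G => g.1.1) h) (hs1 j)
    · exact absurd (congrArg (fun g : G => g.1.1) h).symm (hs1 j')
    · have h' : (Pi.single a 1 : Fin e → ZMod 2) = Pi.single a' 1 :=
        congrArg (fun g : G => g.1.2) h
      by_contra hne
      have := congrFun h' a
      rw [Pi.single_eq_same, Pi.single_eq_of_ne (fun h => hne (by rw [h]))] at this
      exact one_ne_zero this
  · rintro a (j | a')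
    · exact Subtype.ext (Prod.ext ((one_mul _).trans (mul_one _).symm) (mul_comm _ _))
    · exact Subtype.ext (Prod.ext rfl (mul_comm _ _))
  · exact ⟨q.comp ((MonoidHom.fst _ _).comp G.subtype), hq, fun a => map_one q⟩
  · have : Set.range t = G.subtype ⁻¹' (Set.range gen) := by
      ext g
      simp only [Set.mem_range, Set.mem_preimage]
      constructor
      · rintro ⟨i, rfl⟩
        exact ⟨i, rfl⟩
      · rintro ⟨i, h⟩
        exact ⟨i, Subtype.ext h⟩
    rw [this]
    exact Subgroup.closure_preimage_eq_top _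
  · have : G.subtype (L.map fun j => t (.inl j)).prod = ι (L.map s).prod := by
      rw [map_list_prod, map_list_prod, List.map_map, List.map_map]
      rfl
    rw [← map_eq_one_iff G.subtype G.subtype_injective, this, map_eq_one_iff ι hι]

theorem le_pow_maxMinDiam {P : Type} [Group P] [Finite P] (s : Fin 3 → P)
    (hsq : ∀ j, s j * s j = 1) (q : P →* Equiv.Perm (Fin 65)) (hq : ∀ j, q (s j) = bar j)
    (r8 : go s 1 [0, 1, 0, 1, 0, 1, 0, 1] = 1) (r8' : go s 1 [1, 0, 1, 0, 1, 0, 1, 0] = 1)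
    (r12 : go s 1 [0, 2, 1, 0, 1, 2, 0, 2, 1, 0, 1, 2] = 1) (n N : ℕ) (hn : 2 ≤ n)
    (hN : ∀ (V : Type) [Finite V] [Nonempty V] (σ : Fin 3 → Equiv.Perm V), Model s n σ →
      N ≤ Nat.card V) (d r : ℕ) (hd : 3 ≤ d) (hr : n + 22 ≤ r) :
    N ≤ (d + 1) ^ (maxMinDiam d r).toNat := by
  classical
  obtain ⟨e, rfl⟩ := Nat.exists_eq_add_of_le hd
  obtain ⟨G, _, _, t, ht, hgen, hrel⟩ := exists_gens s hsq q hq r8 r8' r12 e
  have hr1 : 1 ≤ r := by omega
  set X := cay t ht.sq ht.ne with hX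
  let B0 := X.induce (ballSet X 1 r)
  let o0 : ballSet X 1 r := ⟨1, self_mem_ballSet _ _ _⟩
  have : Fintype (ballSet X 1 r) := Fintype.ofFinite _
  let ε := B0.overFinIso (n := Fintype.card (ballSet X 1 r)) rfl
  have hXall : ∀ g, BallIso X g r (B0.overFin rfl) (ε o0) := fun g =>
    (ballIso_of_iso (cayIso t ht.sq ht.ne g⁻¹) g 1 (by simp [cayIso]) r).trans ε rfl
  have hdeg : ((B0.overFin rfl).neighborSet (ε o0)).ncard = 3 + e := by
    rw [← (degree_of_ballIso hr1 (hXall 1)).2]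
    have : X.neighborSet 1 = Set.range t := by
      ext g
      simp only [hX, cay, mem_neighborSet, mul_one, Set.mem_range, eq_comm]
    rw [this, Set.ncard_range_of_injective ht.inj]
    simp
  have hreal : Realizable (B0.overFin rfl) (ε o0) r :=
    ⟨G, inferInstance, X, cay_connected t ht.sq ht.ne hgen, hXall⟩
  set D := (maxMinDiam (3 + e) r).toNat with hD
  have hM : maxMinDiam (3 + e) r = D :=
    (ENat.natCast_toNat (maxMinDiam_ne_top (3 + e) r hr1)).symm
  have h1 : minDiam (B0.overFin rfl) (ε o0) r ≤ D := by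
    rw [← hM]
    unfold maxMinDiam
    exact le_iSup_of_le _ (le_iSup_of_le _ (le_iSup_of_le _ (le_iSup_of_le hreal
      (le_iSup_of_le hdeg le_rfl))))
  have h2 : minDiam (B0.overFin rfl) (ε o0) r < (D + 1 : ℕ) :=
    h1.trans_lt (by exact_mod_cast Nat.lt_succ_self D)
  unfold minDiam at h2
  simp only [iInf_lt_iff] at h2
  obtain ⟨V, H, ⟨hconn, hballs⟩, hlt⟩ := h2
  have hD' : H.ediam ≤ D := by
    push_cast at hlt
    exact Order.le_of_lt_add_one hlt
  have hne := hconn.nonempty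
  obtain ⟨v⟩ := hconn.nonempty
  have hballs0 : ∀ u, BallIso H u r B0 o0 := fun u => (hballs u).trans ε.symm (by simp)
  obtain ⟨σ, hσ⟩ := exists_sigma ht r (by omega) H hballs0
  have hcard := ballSet_card H (3 + e) (fun u => (degree_of_ballIso hr1 (hballs u)).1)
    (fun u => by rw [(degree_of_ballIso hr1 (hballs u)).2, hdeg]) v D
  have huniv : ballSet H v D = Set.univ := by
    ext u
    simp only [ballSet, Set.mem_ofPred_eq, Set.mem_univ, iff_true]
    exact edist_le_ediam.trans hD'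
  rw [huniv] at hcard
  have : Finite V := Set.finite_univ_iff.mp hcard.1
  have h3 := hN V σ (fun u L hL => (hσ u L (by omega)).trans (hrel L))
  rw [← Set.ncard_univ V] at h3
  exact h3.trans hcard.2

end Pool.Agent.Lib.MP_fed0c4_co.Cub
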