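import Pool.Agent.Lib.MP_fed0c4_co.Main

/-!
Local rigidity of Cayley graphs on three involutions (and any number of central involutions)
whose labels are read off a fixed permutation group on 65 points.
-/

namespace Pool.Agent.Lib.MP_fed0c4_co.Cub

open SimpleGraph

/-- a transposition and two reflections of the 65-gon -/
def fn (j : Fin 3) (p : Fin 65) : Fin 65 :=
  if j = 0 then (if p = 0 then 1 else if p = 1 then 0 else p) else if j = 1 then -2 - p else -p

theorem fn_fn : ∀ j p, fn j (fn j p) = p := by decide +kernel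

/-- the three involutions as permutations -/
def bar (j : Fin 3) : Equiv.Perm (Fin 65) := Function.Involutive.toPerm (fn j) (fn_fn j)

/-- follow a word, first letter first -/
def go {K : Type} [Group K] (y : Fin 3 → K) : K → List (Fin 3) → K
  | g, [] => g
  | g, a :: w => go y (y a * g) w

theorem go_mul {K : Type} [Group K] (y : Fin 3 → K) (w : List (Fin 3)) (g h : K) :
    go y (g * h) w = go y g w * h := by
  induction w generalizing g with
  | nil => rfl
  | cons a w ih => simp only [go, ← mul_assoc, ih]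

theorem map_go {K K' : Type} [Group K] [Group K'] (f : K →* K') (y : Fin 3 → K)
    (w : List (Fin 3)) (g : K) : f (go y g w) = go (fun a => f (y a)) (f g) w := by
  induction w generalizing g with
  | nil => rfl
  | cons a w ih => simp only [go, ih, map_mul]

theorem go_bar (w : List (Fin 3)) (g : Equiv.Perm (Fin 65)) (p : Fin 65) :
    go bar g w p = w.foldl (fun p a => fn a p) (g p) := by
  induction w generalizing g with
  | nil => rfl
  | cons a w ih => simp only [go, ih, List.foldl_cons]; rfl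

theorem chk4 : ∀ c b : Fin 3, b ≠ c → ∀ o o' : Option (Fin 3), o ≠ some c →
    ∃ p, o.elim id fn (fn c p) ≠ o'.elim id fn (fn b p) := by decide +kernel

theorem chk8 : ∀ a₁ : Fin 3, 2 ≠ a₁ → ∀ a₂ : Fin 3, a₁ ≠ a₂ → ∀ a₃ : Fin 3, a₂ ≠ a₃ →
    ∀ a₄ : Fin 3, a₃ ≠ a₄ → ∀ a₅ : Fin 3, a₄ ≠ a₅ → ∀ a₆ : Fin 3, a₅ ≠ a₆ →
    ∀ a₇ : Fin 3, a₆ ≠ a₇ →
    ∃ p, [2, a₁, a₂, a₃, a₄, a₅, a₆, a₇].foldl (fun p a => fn a p) p ≠ p := by decide +kernel

theorem chk12 : ∀ a₂ : Fin 3, a₂ ≠ 2 → ∀ a₃ : Fin 3, a₃ ≠ 2 → a₂ ≠ a₃ → ∀ a₄ : Fin 3, a₄ ≠ 2 →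
    a₃ ≠ a₄ → ∀ a₆ : Fin 3, a₆ ≠ 2 → ∀ a₈ : Fin 3, a₈ ≠ 2 → ∀ a₉ : Fin 3, a₉ ≠ 2 → a₈ ≠ a₉ →
    ∀ b : Fin 3, b ≠ 2 → a₉ ≠ b →
    ∃ p, [1, 2, a₂, a₃, a₄, 2, a₆, 2, a₈, a₉, b, 2].foldl (fun p a => fn a p) p ≠ p := by
  decide +kernel

/-- the image of a word under a labelling -/
def img {K : Type} [Group K] (y : Fin 3 → K) (l : K → Fin 3 → Fin 3) :
    K → List (Fin 3) → List (Fin 3)
  | _, [] => []
  | g, a :: w => l g a :: img y l (y a * g) w

/-- the hypotheses on the generators -/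
structure Gens {G : Type} [Group G] {e : ℕ} (t : Fin 3 ⊕ Fin e → G) : Prop where
  sq : ∀ i, t i * t i = 1
  ne : ∀ i, t i ≠ 1
  inj : Function.Injective t
  cen : ∀ a i, t (.inr a) * t i = t i * t (.inr a)
  quo : ∃ q : G →* Equiv.Perm (Fin 65), (∀ j, q (t (.inl j)) = bar j) ∧ ∀ a, q (t (.inr a)) = 1
  r8 : go (fun j => t (.inl j)) 1 [0, 1, 0, 1, 0, 1, 0, 1] = 1
  r8' : go (fun j => t (.inl j)) 1 [1, 0, 1, 0, 1, 0, 1, 0] = 1
  r12 : go (fun j => t (.inl j)) 1 [0, 2, 1, 0, 1, 2, 0, 2, 1, 0, 1, 2] = 1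

theorem rigid {G : Type} [Group G] {e : ℕ} {t : Fin 3 ⊕ Fin e → G} (ht : Gens t)
    (D : ℕ → Set G) (θ : G → G) (hs : ∀ k < 22, ∀ y ∈ D k, ∀ i, t i * y ∈ D (k + 1))
    (hi : ∀ k ≤ 22, ∀ l ≤ 22, ∀ y ∈ D k, ∀ z ∈ D l, θ y = θ z → y = z)
    (ha : ∀ k < 22, ∀ y ∈ D k, ∀ i, ∃ i', θ (t i * y) = t i' * θ y) {x : G} (hx : x ∈ D 0)
    (j : Fin 3) : θ (t (.inl j) * x) = t (.inl j) * θ x := by
  classical
  obtain ⟨q, hq, hq'⟩ := ht.quo
  have H0 : ∀ y i, ∃ i', ∀ k < 22, y ∈ D k → θ (t i * y) = t i' * θ y := by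
    intro y i
    by_cases h : ∃ k < 22, y ∈ D k
    · obtain ⟨k, hk, hy⟩ := h
      obtain ⟨i', h'⟩ := ha k hk y hy i
      exact ⟨i', fun _ _ _ => h'⟩
    · exact ⟨i, fun k hk hy => absurd ⟨k, hk, hy⟩ h⟩
  choose μ hμ using H0
  have μinj : ∀ k < 22, ∀ y ∈ D k, Function.Injective (μ y) := by
    intro k hk y hy i i' h
    have := hi _ hk _ hk _ (hs k hk y hy i) _ (hs k hk y hy i')
      (by rw [hμ y i k hk hy, hμ y i' k hk hy, h])
    exact ht.inj (mul_right_cancel this)
  have back : ∀ k < 21, ∀ y ∈ D k, ∀ i i', i ≠ i' → μ y i ≠ μ (t i * y) i' := by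
    intro k hk y hy i i' hne h
    have h1 := hs k (by omega) y hy i
    have h2 := hi (k + 2) (by omega) k (by omega) _ (hs _ (by omega) _ h1 i') y hy (by
      rw [hμ _ i' _ (by omega) h1, hμ y i k (by omega) hy, ← h, ← mul_assoc, ht.sq, one_mul])
    refine hne (ht.inj ?_)
    have h3 : t i' * t i = 1 := mul_right_cancel (b := y) (by rw [mul_assoc, h2, one_mul])
    exact mul_right_cancel (b := t i) (by rw [h3, ht.sq])
  have qt : ∀ i p, q (t i) p = (i.getLeft?).elim id fn p := by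
    rintro (a | a) p
    · rw [hq]; rfl
    · rw [hq']; rfl
  have H1 : ∀ k < 21, ∀ y ∈ D k, ∀ a, ∃ b, μ y (.inr a) = .inr b := by
    intro k hk y hy a
    rcases hc : μ y (.inr a) with c | b
    · exfalso
      obtain ⟨b, hb⟩ := exists_ne c
      obtain ⟨i, hib⟩ := Finite.surjective_of_injective (μinj k (by omega) y hy) (.inl b)
      have hia : Sum.inr a ≠ i := by
        rintro rfl
        exact hb (Sum.inl_injective (hib.symm.trans hc))
      have h1 := hs k (by omega) y hy (.inr a)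
      have h2 := hs k (by omega) y hy i
      have e1 := hμ _ i _ (by omega) h1
      have e2 := hμ _ (.inr a) _ (by omega) h2
      rw [hμ y _ k (by omega) hy, hc] at e1
      rw [hμ y _ k (by omega) hy, hib, ← mul_assoc, ht.cen, mul_assoc, e1, ← mul_assoc,
        ← mul_assoc] at e2
      have e3 := congrArg q (mul_right_cancel e2)
      have e4 := back k hk y hy _ _ hia
      rw [hc] at e4
      obtain ⟨p, hp⟩ := chk4 c b hb (μ (t (.inr a) * y) i).getLeft? (μ (t i * y) (.inr a)).getLeft?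
        (fun h => e4 (Sum.getLeft?_eq_some_iff.1 h).symm)
      refine hp ?_
      have := congrArg (fun σ : Equiv.Perm (Fin 65) => σ p) e3
      simpa only [map_mul, Equiv.Perm.mul_apply, qt, Sum.getLeft?_inl, Option.elim_some] using this
    · exact ⟨b, rfl⟩
  have H2 : ∀ y a, ∃ b, ∀ k < 21, y ∈ D k → μ y (.inl a) = .inl b := by
    intro y a
    rcases hc : μ y (.inl a) with b | b
    · exact ⟨b, fun _ _ _ => rfl⟩
    · refine ⟨a, fun k hk hy => ?_⟩
      exfalso
      choose f hf using H1 k hk y hy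
      have hm := μinj k (by omega) y hy
      have fi : Function.Injective f := fun a a' h =>
        Sum.inr_injective (hm (by rw [hf, hf, h]))
      obtain ⟨c, rfl⟩ := Finite.surjective_of_injective fi b
      exact Sum.inl_ne_inr (hm (hc.trans (hf c).symm))
  choose l hl using H2
  set s : Fin 3 → G := fun j => t (.inl j) with hsdef
  have hθ : ∀ k < 21, ∀ y ∈ D k, ∀ a, θ (s a * y) = s (l y a) * θ y := fun k hk y hy a => by
    rw [hsdef]; simp only; rw [hμ y _ k (by omega) hy, hl y a k hk hy]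
  have linj : ∀ k < 21, ∀ y ∈ D k, Function.Injective (l y) := fun k hk y hy a b h =>
    Sum.inl_injective (μinj k (by omega) y hy (by rw [hl y a k hk hy, hl y b k hk hy, h]))
  have lback : ∀ k < 20, ∀ y ∈ D k, ∀ a b, a ≠ b → l y a ≠ l (s a * y) b := by
    intro k hk y hy a b hne h
    refine back k (by omega) y hy (.inl a) (.inl b) (fun h => hne (Sum.inl_injective h)) ?_
    rw [hl y a k (by omega) hy, hl _ b (k + 1) (by omega) (hs k (by omega) y hy _), h]
  have walk : ∀ (w : List (Fin 3)) k, ∀ y ∈ D k, k + w.length ≤ 21 →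
      θ (go s y w) = go s (θ y) (img s l y w) := by
    intro w
    induction w with
    | nil => intro _ _ _ _; rfl
    | cons a w ih =>
      intro k y hy h
      simp only [List.length_cons] at h
      simp only [go, img]
      rw [ih (k + 1) _ (hs k (by omega) y hy _) (by omega), hθ k (by omega) y hy]
  have closed : ∀ (w : List (Fin 3)) k, ∀ y ∈ D k, k + w.length ≤ 21 → go s 1 w = 1 →
      ∀ p, (img s l y w).foldl (fun p a => fn a p) p = p := by
    intro w k y hy h h1 p
    have a := walk w k y hy h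
    rw [← one_mul y, go_mul, h1, one_mul, ← one_mul (θ y), go_mul] at a
    have b := congrArg q (mul_right_cancel a)
    rw [map_go, map_one] at b
    simp only [hsdef, hq] at b
    have c := go_bar (img s l y w) 1 p
    rw [← b] at c
    exact c.symm
  have H3 : ∀ k ≤ 12, ∀ y ∈ D k, ∀ a b, a ≠ b → go s 1 [a, b, a, b, a, b, a, b] = 1 →
      l y a ≠ 2 := by
    intro k hk y hy a b hab h1 h2
    have c := closed _ k y hy (by simp; omega) h1
    have y1 := hs _ (by omega) _ hy (.inl a)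
    have y2 := hs _ (by omega) _ y1 (.inl b)
    have y3 := hs _ (by omega) _ y2 (.inl a)
    have y4 := hs _ (by omega) _ y3 (.inl b)
    have y5 := hs _ (by omega) _ y4 (.inl a)
    have y6 := hs _ (by omega) _ y5 (.inl b)
    obtain ⟨p, hp⟩ := chk8 _ (h2 ▸ lback _ (by omega) _ hy a b hab)
      _ (lback _ (by omega) _ y1 b a hab.symm) _ (lback _ (by omega) _ y2 a b hab)
      _ (lback _ (by omega) _ y3 b a hab.symm) _ (lback _ (by omega) _ y4 a b hab)
      _ (lback _ (by omega) _ y5 b a hab.symm) _ (lback _ (by omega) _ y6 a b hab)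
    refine hp ?_
    have := c p
    simp only [img] at this
    rwa [h2] at this
  have H0' : ∀ k ≤ 12, ∀ y ∈ D k, l y 0 ≠ 2 := fun k hk y hy =>
    H3 k hk y hy 0 1 (by decide) ht.r8
  have H1' : ∀ k ≤ 12, ∀ y ∈ D k, l y 1 ≠ 2 := fun k hk y hy =>
    H3 k hk y hy 1 0 (by decide) ht.r8'
  have H2' : ∀ k ≤ 12, ∀ y ∈ D k, l y 2 = 2 := by
    intro k hk y hy
    obtain ⟨a, h⟩ := Finite.surjective_of_injective (linj k (by omega) y hy) 2
    have h0 := H0' k hk y hy
    have h1 := H1' k hk y hy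
    fin_cases a
    · exact absurd h h0
    · exact absurd h h1
    · exact h
  have H4 : l x 0 ≠ 1 := by
    intro h2
    have c := closed _ 0 x hx (by simp) ht.r12
    have y1 := hs _ (by omega) _ hx (.inl 0)
    have y2 := hs _ (by omega) _ y1 (.inl 2)
    have y3 := hs _ (by omega) _ y2 (.inl 1)
    have y4 := hs _ (by omega) _ y3 (.inl 0)
    have y5 := hs _ (by omega) _ y4 (.inl 1)
    have y6 := hs _ (by omega) _ y5 (.inl 2)
    have y7 := hs _ (by omega) _ y6 (.inl 0)
    have y8 := hs _ (by omega) _ y7 (.inl 2)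
    have y9 := hs _ (by omega) _ y8 (.inl 1)
    have y10 := hs _ (by omega) _ y9 (.inl 0)
    have y11 := hs _ (by omega) _ y10 (.inl 1)
    obtain ⟨p, hp⟩ := chk12 _ (H1' _ (by omega) _ y2) _ (H0' _ (by omega) _ y3)
      (lback _ (by omega) _ y2 1 0 (by decide)) _ (H1' _ (by omega) _ y4)
      (lback _ (by omega) _ y3 0 1 (by decide)) _ (H0' _ (by omega) _ y6)
      _ (H1' _ (by omega) _ y8) _ (H0' _ (by omega) _ y9)
      (lback _ (by omega) _ y8 1 0 (by decide)) _ (H1' _ (by omega) _ y10)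
      (lback _ (by omega) _ y9 0 1 (by decide))
    refine hp ?_
    have := c p
    simp only [img] at this
    rwa [h2, H2' _ (by omega) _ y1, H2' _ (by omega) _ y5, H2' _ (by omega) _ y7,
      H2' _ (by omega) _ y11] at this
  have h0 := H0' 0 (by omega) x hx
  have h1 := H1' 0 (by omega) x hx
  have h01 : l x 0 ≠ l x 1 := fun h => absurd (linj 0 (by omega) x hx h) (by decide)
  have key : l x j = j := by
    fin_cases j
    · show l x 0 = 0
      omega
    · show l x 1 = 1
      omega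
    · exact H2' 0 (by omega) x hx
  have := hθ 0 (by omega) x hx j
  rwa [key] at this

end Pool.Agent.Lib.MP_fed0c4_co.Cub
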