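import Mathlib

/-!
Finite groups with `3 L + 1` involutive generators whose relations of length at most 16 force a
tower of height `L` of elements whose quotients are all conjugate to one generator.
-/

namespace Pool.Agent.Lib.MP_fed0c4_co.Cub

open Subgroup

section Alg

variable {K : Type} [Group K]

/-- product of the `e i`, `i < m`, selected by `ε` -/
def sel (e : ℕ → K) (ε : ℕ → Bool) : ℕ → K
  | 0 => 1
  | m + 1 => sel e ε m * (if ε m then e m else 1)

theorem sel_mem (e : ℕ → K) (ε : ℕ → Bool) (S : Subgroup K) (h : ∀ i, e i ∈ S) (m : ℕ) :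
    sel e ε m ∈ S := by
  induction m with
  | zero => exact S.one_mem
  | succ m ih =>
    refine S.mul_mem ih ?_
    split_ifs
    exacts [h m, S.one_mem]

theorem commute_sel (e : ℕ → K) (ε : ℕ → Bool) (x : K) (m : ℕ) (h : ∀ i < m, Commute x (e i)) :
    Commute x (sel e ε m) := by
  induction m with
  | zero => exact Commute.one_right x
  | succ m ih =>
    refine (ih fun i hi => h i (by omega)).mul_right ?_
    split_ifs
    exacts [h m (by omega), Commute.one_right x]

theorem sel_xor (e : ℕ → K) (ε ε' : ℕ → Bool) (m : ℕ) (h2 : ∀ i, e i * e i = 1)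
    (h : ∀ i < m, ∀ j < i, Commute (e i) (e j)) :
    (sel e ε m)⁻¹ * sel e ε' m = sel e (fun i => xor (ε i) (ε' i)) m := by
  induction m with
  | zero => simp [sel]
  | succ m ih =>
    have a := ih fun i hi => h i (by omega)
    have b := (commute_sel e (fun i => xor (ε i) (ε' i)) (e m) m (h m (by omega))).eq
    have c : (e m)⁻¹ = e m := inv_eq_of_mul_eq_one_right (h2 m)
    simp only [sel, mul_inv_rev]
    rw [mul_assoc, ← mul_assoc (sel e ε m)⁻¹, a]
    by_cases h1 : ε m = true <;> by_cases h1' : ε' m = true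
    · simp only [h1, h1', if_true, c, Bool.xor_self, Bool.false_eq_true, if_false]
      rw [← mul_assoc, b, mul_assoc, h2]
    · simp [h1, h1', c, b]
    · simp [h1, h1']
    · simp [h1, h1']

theorem sel_conj (e g σ : ℕ → K) (p : K) (S : Subgroup K) (hg : ∀ i, g i ∈ S) (hσ : ∀ i, σ i ∈ S)
    (h1 : ∀ i, g i * p * (g i)⁻¹ = e i * p) (h2 : ∀ i, σ i * p * (σ i)⁻¹ = e i) (ε : ℕ → Bool)
    (m : ℕ) (h3 : ∀ i < m, ∀ j < i, Commute (g i) (e j) ∧ Commute (σ i) (e j)) :
    (∃ h ∈ S, sel e ε m * p = h * p * h⁻¹) ∧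
      ((∃ i < m, ε i = true) → ∃ h ∈ S, sel e ε m = h * p * h⁻¹) := by
  induction m with
  | zero => exact ⟨⟨1, S.one_mem, by simp [sel]⟩, fun ⟨i, hi, _⟩ => absurd hi (by omega)⟩
  | succ m ih =>
    obtain ⟨⟨h, hS, hh⟩, ih2⟩ := ih fun i hi => h3 i (by omega)
    have key : ∀ x : K, Commute x (sel e ε m) →
        sel e ε m * (x * p * x⁻¹) = (x * h) * p * (x * h)⁻¹ := fun x hx => by
      calc sel e ε m * (x * p * x⁻¹) = x * (sel e ε m * p) * x⁻¹ := by
            rw [← mul_assoc, ← mul_assoc, ← hx.eq]; group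
        _ = _ := by rw [hh]; group
    rcases hε : ε m with _ | _
    · simp only [sel, hε, Bool.false_eq_true, if_false, mul_one]
      refine ⟨⟨h, hS, hh⟩, fun ⟨i, hi, hi'⟩ => ih2 ⟨i, ?_, hi'⟩⟩
      rcases Nat.lt_succ_iff_lt_or_eq.1 hi with h' | rfl
      · exact h'
      · simp [hε] at hi'
    · simp only [sel, hε, if_true]
      refine ⟨⟨g m * h, S.mul_mem (hg m) hS, ?_⟩, fun _ => ⟨σ m * h, S.mul_mem (hσ m) hS, ?_⟩⟩
      · rw [mul_assoc, ← h1]
        exact key _ (commute_sel e ε _ m fun j hj => (h3 m (by omega) j hj).1)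
      · rw [← h2]
        exact key _ (commute_sel e ε _ m fun j hj => (h3 m (by omega) j hj).2)

theorem commute_closure {x : K} {R : Set K} (h : ∀ y ∈ R, Commute x y) :
    ∀ y ∈ closure R, Commute x y := fun y hy =>
  ((closure_le (centralizer {x})).2 (fun z hz => mem_centralizer_singleton_iff.2 (h z hz).symm.eq)
    hy : y ∈ centralizer {x}) x rfl

theorem alg_step (R R₀ : Set K) (hR : R₀ ⊆ R) (t p g σ : K) (τ : ℕ → K) (n : ℕ)
    (hτ : ∀ a, τ a ∈ closure R)
    (hτ' : ∀ a < n, ∀ b < n, a ≠ b → ∃ h ∈ closure R₀, (τ a)⁻¹ * τ b = h * t * h⁻¹)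
    (pp : p * p = 1) (hp : ∀ y ∈ R, Commute p y) (hg : ∀ y ∈ R₀, Commute g y)
    (hσ : ∀ y ∈ R₀, Commute σ y) (c1 : Commute (σ * p * σ⁻¹) (t * (σ * p * σ⁻¹) * t⁻¹))
    (c2 : Commute g (t * (σ * p * σ⁻¹) * t⁻¹)) (c3 : Commute σ (t * (σ * p * σ⁻¹) * t⁻¹))
    (c4 : g * p * g⁻¹ = σ * p * σ⁻¹ * p) (S S' : Subgroup K) (hS : S ≤ S') (hRS : R ⊆ S)
    (hgS : g ∈ S) (hσS : σ ∈ S) (hpS : p ∈ S') :
    ∃ τ' : ℕ → K, (∀ a, τ' a ∈ S') ∧
      ∀ a < 2 ^ n, ∀ b < 2 ^ n, a ≠ b → ∃ h ∈ S, (τ' a)⁻¹ * τ' b = h * p * h⁻¹ := by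
  set e := σ * p * σ⁻¹ with he
  have hτS : ∀ a, τ a ∈ S := fun a => (closure_le S).2 hRS (hτ a)
  have he0 : ∀ y ∈ R₀, Commute e y := fun y hy =>
    ((hσ y hy).mul_left (hp y (hR hy))).mul_left (hσ y hy).inv_left
  have far : ∀ x : K, (∀ y ∈ R₀, Commute x y) → Commute x (t * e * t⁻¹) → ∀ a < n, ∀ b < a,
      Commute (τ a * x * (τ a)⁻¹) (τ b * e * (τ b)⁻¹) := by
    intro x hx hc a ha b hb
    obtain ⟨h, hh, h'⟩ := hτ' a ha b (by omega) (by omega)
    have e1 := (commute_closure hx h hh).eq
    have e2 := (commute_closure he0 h hh).eq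
    have e3 : τ b = τ a * (h * t * h⁻¹) := by rw [← h']; group
    have := hc.conj (τ a * h)
    rw [show τ a * h * x * (τ a * h)⁻¹ = τ a * x * (τ a)⁻¹ by
        rw [mul_assoc (τ a), ← e1]; group,
      show τ a * h * (t * e * t⁻¹) * (τ a * h)⁻¹ = τ b * e * (τ b)⁻¹ by
        calc _ = τ a * h * t * h⁻¹ * (h * e) * t⁻¹ * h⁻¹ * (τ a)⁻¹ := by group
          _ = _ := by rw [← e2, e3]; group] at this
    exact this
  have hpτ : ∀ a x, τ a * x * (τ a)⁻¹ * p * (τ a * x * (τ a)⁻¹)⁻¹ =
      τ a * (x * p * x⁻¹) * (τ a)⁻¹ := fun a x => by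
    have := (commute_closure hp _ (hτ a)).eq
    calc _ = τ a * x * (τ a)⁻¹ * (p * τ a) * x⁻¹ * (τ a)⁻¹ := by group
      _ = _ := by rw [this]; group
  refine ⟨fun a => sel (fun i => τ i * e * (τ i)⁻¹) a.testBit n, fun a => sel_mem _ _ _ (fun i =>
    S'.mul_mem (S'.mul_mem (hS (hτS i)) (S'.mul_mem (S'.mul_mem (hS hσS) hpS)
      (S'.inv_mem (hS hσS)))) (S'.inv_mem (hS (hτS i)))) n, fun a ha b hb hab => ?_⟩
  simp only
  rw [sel_xor _ _ _ _ (fun i => by
      calc _ = τ i * σ * (p * p) * σ⁻¹ * (τ i)⁻¹ := by rw [he]; group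
        _ = 1 := by rw [pp]; group) (far e he0 c1)]
  refine (sel_conj _ (fun i => τ i * g * (τ i)⁻¹) (fun i => τ i * σ * (τ i)⁻¹) p S
    (fun i => S.mul_mem (S.mul_mem (hτS i) hgS) (S.inv_mem (hτS i)))
    (fun i => S.mul_mem (S.mul_mem (hτS i) hσS) (S.inv_mem (hτS i))) (fun i => ?_)
    (fun i => hpτ i σ) _ n (fun i hi j hj => ⟨far g hg c2 i hi j hj, far σ hσ c3 i hi j hj⟩)).2 ?_
  · have := (commute_closure hp _ (hτ i)).inv_right.eq
    rw [hpτ, c4, mul_assoc (τ i * e), ← this]
    group
  · by_contra hne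
    refine hab (Nat.eq_of_testBit_eq fun i => ?_)
    by_cases hi : i < n
    · by_contra h
      exact hne ⟨i, hi, by simpa using h⟩
    · have := Nat.pow_le_pow_right (n := 2) (by omega) (not_lt.1 hi)
      rw [Nat.testBit_lt_two_pow (by omega), Nat.testBit_lt_two_pow (by omega)]

end Alg

/-- the relations of length at most 16 of `s` hold for `ρ` -/
def Rel {J P K : Type} [Group P] [Group K] (s : J → P) (ρ : J → K) : Prop :=
  ∀ L : List J, L.length ≤ 16 → (L.map s).prod = 1 → (L.map ρ).prod = 1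

theorem prod_reverse {J K : Type} [Group K] (ρ : J → K) (h : ∀ x, ρ x * ρ x = 1) (L : List J) :
    (L.reverse.map ρ).prod = ((L.map ρ).prod)⁻¹ := by
  induction L with
  | nil => simp
  | cons a L ih =>
    rw [List.reverse_cons, List.map_append, List.prod_append, ih]
    simp [inv_eq_of_mul_eq_one_right (h a)]

theorem Rel.sq {J P K : Type} [Group P] [Group K] {s : J → P} {ρ : J → K} (h : Rel s ρ)
    (hs : ∀ x, s x * s x = 1) (x : J) : ρ x * ρ x = 1 := by
  simpa using h [x, x] (by simp) (by simp [hs])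

theorem Rel.eq {J P K : Type} [Group P] [Group K] {s : J → P} {ρ : J → K} (h : Rel s ρ)
    (hs : ∀ x, s x * s x = 1) (L L' : List J) (hL : L.length + L'.length ≤ 16)
    (e : (L.map s).prod = (L'.map s).prod) : (L.map ρ).prod = (L'.map ρ).prod := by
  have := h (L ++ L'.reverse) (by simpa using hL) (by
    rw [List.map_append, List.prod_append, prod_reverse s hs, e, mul_inv_cancel])
  rwa [List.map_append, List.prod_append, prod_reverse ρ (h.sq hs), mul_inv_eq_one] at this

/-- one level of the tower, with `m + 1` generators and `n` separated elements -/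
def Level (m n : ℕ) : Prop :=
  ∃ (I J : Type) (_ : Finite I) (_ : Finite J) (s : Option J → Equiv.Perm I) (o : I),
    Nat.card J = m ∧ (∀ x, s x * s x = 1) ∧ (∀ x, s (some x) o = o) ∧ s none o ≠ o ∧
    ∀ (K : Type) [Group K] (ρ : Option J → K), Rel s ρ →
      ∃ τ : ℕ → K, (∀ a, τ a ∈ closure (Set.range ρ)) ∧ ∀ a < n, ∀ b < n, a ≠ b →
        ∃ h ∈ closure (Set.range fun x => ρ (some x)), (τ a)⁻¹ * τ b = h * ρ none * h⁻¹

theorem level_zero : Level 0 1 :=
  ⟨Bool, Empty, inferInstance, inferInstance, fun _ => Equiv.swap true false, true, by simp,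
    fun _ => by simp, fun x => x.elim, by simp, fun K _ ρ _ =>
      ⟨fun _ => 1, fun _ => one_mem _, fun a ha b hb hab => absurd (by omega) hab⟩⟩

/-- permuting coordinates -/
def lift (I : Type) : Equiv.Perm I →* Equiv.Perm (Option I → ZMod 2) where
  toFun π := (Equiv.optionCongr π).arrowCongr (Equiv.refl _)
  map_one' := by
    ext f x
    cases x <;> rfl
  map_mul' π π' := by
    ext f x
    cases x <;> rfl

theorem lin {M : Type} [AddGroup M] (A : Equiv.Perm M) (hA : ∀ f v, A (f + v) = A f + A v)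
    (v : M) : A * Equiv.addRight v = Equiv.addRight (A v) * A :=
  Equiv.ext fun f => hA f v

theorem level_succ {m n : ℕ} (h : Level m n) : Level (m + 3) (2 ^ n) := by
  classical
  obtain ⟨I, J, _, _, s, o, hJ, hs, ho, ht, hK⟩ := h
  let δ : Option I → Option I → ZMod 2 := fun x => Pi.single x 1
  have two : ∀ f : Option I → ZMod 2, f + f = 0 :=
    fun f => funext fun x => CharTwo.add_self_eq_zero (f x)
  let g : Equiv.Perm (Option I → ZMod 2) := Function.Involutive.toPerm
    (fun f => f + Pi.single (some o) (f none)) (fun f => by simp [add_assoc, two])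
  let σ : Equiv.Perm (Option I → ZMod 2) := Function.Involutive.toPerm
    (fun f => f ∘ Equiv.swap none (some o)) (fun f => by ext x; simp)
  have gap : ∀ f, g f = f + Pi.single (some o) (f none) := fun _ => rfl
  have σap : ∀ f x, σ f x = f (Equiv.swap none (some o) x) := fun _ _ => rfl
  have l1 : ∀ (π : Equiv.Perm I) f, lift I π f none = f none := fun _ _ => rfl
  have l2 : ∀ (π : Equiv.Perm I) f x, lift I π f (some x) = f (some (π.symm x)) :=
    fun _ _ _ => rfl
  have hsy : ∀ x, (s x).symm = s x := fun x => inv_eq_of_mul_eq_one_right (hs x)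
  have hoo : ∀ x y, s (some x) y = o ↔ y = o := fun x y => by
    rw [← (s (some x)).apply_eq_iff_eq (x := y), ho]
  let s' : Option (Option J ⊕ Bool) → Equiv.Perm (Option I → ZMod 2) := fun x =>
    x.elim (Equiv.addRight (δ none)) (Sum.elim (fun y => lift I (s y)) fun b => if b then g else σ)
  have Lg := lin g (fun f v => by simp only [gap, Pi.add_apply, Pi.single_add]; abel)
  have Lσ := lin σ (fun f v => rfl)
  have Ll := fun x => lin (lift I (s x)) (fun f v => rfl)
  have σσ : σ * σ = 1 := Equiv.ext σ.left_inv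
  have gg : g * g = 1 := Equiv.ext g.left_inv
  have ll : ∀ x, lift I (s x) * lift I (s x) = 1 := fun x => by rw [← map_mul, hs, map_one]
  have hs' : ∀ x, s' x * s' x = 1 := by
    rintro (_ | x | _ | _)
    · exact Equiv.ext fun f => show f + δ none + δ none = f by rw [add_assoc, two, add_zero]
    · exact ll x
    · exact σσ
    · exact gg
  have d1 : σ (δ none) = δ (some o) := by
    ext x
    simp only [σap, δ, Pi.single_apply, Equiv.swap_apply_eq_iff, Equiv.swap_apply_left]
  have d2 : ∀ y, lift I (s y) (δ none) = δ none := fun y => by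
    ext x
    cases x <;> simp [l1, l2, δ]
  have d3 : lift I (s none) (δ (some o)) = δ (some (s none o)) := by
    ext x
    cases x <;> simp [l1, l2, δ, Pi.single_apply, Equiv.symm_apply_eq]
  have d4 : g (δ (some (s none o))) = δ (some (s none o)) := by simp [gap, δ]
  have d5 : σ (δ (some (s none o))) = δ (some (s none o)) := by
    ext x
    simp only [σap, δ, Pi.single_apply, Equiv.swap_apply_eq_iff]
    rw [Equiv.swap_apply_of_ne_of_ne (by simp) (by simpa using ht)]
  have d6 : g (δ none) = δ none + δ (some o) := by simp [gap, δ]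
  have E : σ * (Equiv.addRight (δ none) * σ) = Equiv.addRight (δ (some o)) := by
    rw [← mul_assoc, Lσ, d1, mul_assoc, σσ, mul_one]
  have E' : lift I (s none) * (σ * (Equiv.addRight (δ none) * (σ * lift I (s none)))) =
      Equiv.addRight (δ (some (s none o))) := by
    rw [← mul_assoc (Equiv.addRight _) σ, ← mul_assoc σ, E, ← mul_assoc, Ll, d3, mul_assoc, ll,
      mul_one]
  refine ⟨Option I → ZMod 2, Option J ⊕ Bool, inferInstance, inferInstance, s', 0,
    by simp [hJ], hs', ?_, ?_, fun K _ ρ hρ => ?_⟩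
  · rintro (x | _ | _)
    · rfl
    · rfl
    · exact (gap 0).trans (by simp)
  · intro h
    have := congrFun (show 0 + δ none = 0 from h) none
    simp [δ] at this
  obtain ⟨τ, hτ, hτ'⟩ := hK K (fun x => ρ (some (.inl x))) (fun L hL h1 => by
    have := hρ (L.map fun x => some (.inl x)) (by simpa using hL) (by
      have := congrArg (lift I) h1
      rw [map_list_prod, List.map_map, map_one] at this
      rw [List.map_map]
      exact this)
    rwa [List.map_map] at this)
  have inv : ∀ x, (ρ x)⁻¹ = ρ x := fun x => inv_eq_of_mul_eq_one_right (hρ.sq hs' x)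
  have com : ∀ L L' : List (Option (Option J ⊕ Bool)), L.length + L'.length ≤ 8 →
      (L.map s').prod * (L'.map s').prod = (L'.map s').prod * (L.map s').prod →
      Commute (L.map ρ).prod (L'.map ρ).prod := fun L L' hL h => by
    have := hρ.eq hs' (L ++ L') (L' ++ L) (by simp; omega) (by simpa using h)
    simpa [commute_iff_eq] using this
  let W : List (Option (Option J ⊕ Bool)) :=
    [some (.inl none), some (.inr false), none, some (.inr false), some (.inl none)]
  have hW : (W.map s').prod = Equiv.addRight (δ (some (s none o))) := by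
    simpa [W, s'] using E'
  have hW' : (W.map ρ).prod = ρ (some (.inl none)) * (ρ (some (.inr false)) * ρ none *
      (ρ (some (.inr false)))⁻¹) * (ρ (some (.inl none)))⁻¹ := by
    simp [W, inv, mul_assoc]
  refine alg_step _ _ ?_ _ (ρ none) (ρ (some (.inr true))) (ρ (some (.inr false))) τ n hτ hτ'
    (hρ.sq hs' _) ?_ ?_ ?_ ?_ ?_ ?_ ?_ _ _ (closure_mono ?_) ?_ (subset_closure ⟨_, rfl⟩)
    (subset_closure ⟨_, rfl⟩) (subset_closure ⟨_, rfl⟩)
  · rintro _ ⟨x, rfl⟩
    exact ⟨_, rfl⟩
  · rintro _ ⟨x, rfl⟩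
    simpa using com [none] [some (.inl x)] (by simp) (by simp [s', Ll, d2])
  · rintro _ ⟨x, rfl⟩
    have : g * lift I (s (some x)) = lift I (s (some x)) * g := by
      ext f y
      cases y <;> simp [gap, l1, l2, hsy, Pi.single_apply, hoo]
    simpa using com [some (.inr true)] [some (.inl (some x))] (by simp) (by simpa [s'] using this)
  · rintro _ ⟨x, rfl⟩
    have : σ * lift I (s (some x)) = lift I (s (some x)) * σ := by
      ext f y
      rcases y with _ | y
      · simp [σap, l1, l2, hsy, ho]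
      · by_cases hy : y = o
        · simp [σap, l1, l2, hsy, ho, hy]
        · simp [σap, l2, hsy, Equiv.swap_apply_of_ne_of_ne, hy, hoo]
    simpa using com [some (.inr false)] [some (.inl (some x))] (by simp) (by simpa [s'] using this)
  · have := com [some (.inr false), none, some (.inr false)] W (by simp [W]) (by
      rw [hW]
      simp only [s', List.map_cons, List.map_nil, List.prod_cons, List.prod_nil, Option.elim,
        Sum.elim_inr, mul_one, Bool.false_eq_true, if_false, E]
      exact Equiv.ext fun f => add_right_comm _ _ _)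
    rw [hW'] at this
    simpa [inv, mul_assoc] using this
  · have := com [some (.inr true)] W (by simp [W]) (by rw [hW]; simp [s', Lg, d4])
    rw [hW'] at this
    simpa using this
  · have := com [some (.inr false)] W (by simp [W]) (by rw [hW]; simp [s', Lσ, d5])
    rw [hW'] at this
    simpa using this
  · have := hρ.eq hs' [some (.inr true), none, some (.inr true)]
      [some (.inr false), none, some (.inr false), none] (by simp) (by
      simp only [s', List.map_cons, List.map_nil, List.prod_cons, List.prod_nil, Option.elim,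
        Sum.elim_inr, mul_one, Bool.false_eq_true, if_false, if_true]
      rw [← mul_assoc g, Lg, d6, mul_assoc, gg, mul_one, ← mul_assoc (Equiv.addRight _) σ,
        ← mul_assoc σ, E]
      exact Equiv.ext fun f => (add_assoc _ _ _).symm)
    simpa [inv, mul_assoc] using this
  · rintro _ ⟨x, rfl⟩
    exact ⟨_, rfl⟩
  · rintro _ ⟨x, rfl⟩
    exact subset_closure ⟨_, rfl⟩

theorem level (L : ℕ) : Level (3 * L) ((fun n => 2 ^ n)^[L] 1) := by
  induction L with
  | zero => exact level_zero
  | succ L ih =>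
    rw [Function.iterate_succ_apply']
    exact level_succ ih

end Pool.Agent.Lib.MP_fed0c4_co.Cub
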