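import Pool.Agent.Lib.MP_fed0c4_co.Cub.Embed
import Pool.Agent.Lib.MP_fed0c4_co.Cub.Tower

/-!
The tower lower bound for every root degree at least three.
-/

namespace Pool.Agent.Lib.MP_fed0c4_co.Cub

theorem tower_le (L d r : ℕ) (hd : 3 ≤ d) (hr : 35328 * L + 11798 ≤ r) :
    (fun n => 2 ^ n)^[L] 1 ≤ (d + 1) ^ (maxMinDiam d r).toNat := by
  obtain ⟨I, J, _, _, s, o, hJ, hs, -, ht, hK⟩ := level L
  refine le_pow_of_many s hs 16 _ (by omega) (fun V _ hV ρ hρ => ?_) d r hd (by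
    rw [Finite.card_option, hJ]; omega)
  obtain ⟨v⟩ := hV
  obtain ⟨τ, -, hτ⟩ := hK _ ρ fun w hw h => Equiv.ext fun u => (hρ u w hw).2 h
  have : Function.Injective fun a : Fin ((fun n => 2 ^ n)^[L] 1) => τ a v := by
    intro a b hab
    by_contra hne
    obtain ⟨h, -, hh⟩ := hτ a a.2 b b.2 fun h => hne (Fin.ext h)
    have h1 : (h * ρ none * h⁻¹) v = v := by
      rw [← hh, Equiv.Perm.mul_apply, ← show τ a v = τ b v from hab]
      simp
    have h2 : s none = 1 := by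
      simpa using (hρ (h⁻¹ v) [none] (by simp)).1 (by
        simpa using (Equiv.Perm.eq_inv_iff_eq (f := h)).2 h1)
    exact ht (by rw [h2]; rfl)
  simpa using Nat.card_le_card_of_injective _ this

theorem le_tower (h x : ℕ) : x + h ≤ (fun n => 2 ^ n)^[h] x := by
  induction h with
  | zero => simp
  | succ h ih =>
    rw [Function.iterate_succ_apply']
    exact (Nat.succ_le_succ ih).trans Nat.lt_two_pow_self

theorem tower_mono (h : ℕ) : Monotone (fun n : ℕ => 2 ^ n)^[h] :=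
  Monotone.iterate (fun _ _ hab => Nat.pow_le_pow_right (by omega) hab) h

theorem tendsto_tower (d : ℕ) (hd : 3 ≤ d) :
    Filter.Tendsto (fun r : ℕ => ((maxMinDiam d r).toNat : ℝ) /
      (((fun n : ℕ => 2 ^ n)^[r / 80000] r : ℕ) : ℝ)) Filter.atTop Filter.atTop := by
  rw [Filter.tendsto_atTop_atTop]
  intro b
  obtain ⟨C, hC⟩ := exists_nat_ge b
  refine ⟨80000 * 60 + C * d, fun r hr => ?_⟩
  obtain ⟨h, hh⟩ : ∃ h, h = r / 80000 := ⟨_, rfl⟩
  rw [← hh]
  set T := (fun n : ℕ => 2 ^ n)^[h] r with hT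
  have hTr : r ≤ T := (Nat.le_add_right _ _).trans (le_tower h r)
  have h1 : r ≤ (fun n : ℕ => 2 ^ n)^[h] 1 := by
    obtain ⟨g, rfl⟩ : ∃ g, h = g + 1 := ⟨h - 1, by omega⟩
    rw [Function.iterate_succ_apply']
    refine le_trans ?_ (Nat.pow_le_pow_right (by omega) (le_tower g 1))
    obtain ⟨k, rfl⟩ : ∃ k, g = k + 30 := ⟨g - 30, by omega⟩
    have a1 : k < 2 ^ k := Nat.lt_two_pow_self
    rw [show 1 + (k + 30) = k + 31 by omega, pow_add]
    omega
  have h2 := tower_le (3 + (h + h)) d r hd (by omega)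
  rw [Function.iterate_add_apply, Function.iterate_add_apply] at h2
  have h3 := (tower_mono 3 (tower_mono h h1)).trans h2
  rw [← hT] at h3
  have h4 : (d + 1) ^ (maxMinDiam d r).toNat ≤ 2 ^ (d * (maxMinDiam d r).toNat) := by
    rw [pow_mul]
    exact Nat.pow_le_pow_left Nat.lt_two_pow_self _
  have h5 : 2 ^ 2 ^ T ≤ d * (maxMinDiam d r).toNat :=
    (Nat.pow_le_pow_iff_right (by omega)).1 (h3.trans h4)
  have h6 : T * T ≤ 2 ^ 2 ^ T := by
    have a1 : T < 2 ^ T := Nat.lt_two_pow_self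
    have a2 : T + T ≤ 2 ^ T := by
      obtain ⟨S, hS⟩ : ∃ S, T = S + 1 := ⟨T - 1, by omega⟩
      have : S < 2 ^ S := Nat.lt_two_pow_self
      rw [hS, pow_succ]
      omega
    calc T * T ≤ 2 ^ T * 2 ^ T := Nat.mul_le_mul a1.le a1.le
      _ ≤ _ := by rw [← pow_add]; exact Nat.pow_le_pow_right (by omega) a2
  have h7 : C * T ≤ (maxMinDiam d r).toNat := by
    refine Nat.le_of_mul_le_mul_left (c := d) ?_ (by omega)
    calc d * (C * T) = C * d * T := by ring
      _ ≤ T * T := Nat.mul_le_mul_right _ (by omega)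
      _ ≤ _ := h6.trans h5
  have hT0 : (0 : ℝ) < T := by exact_mod_cast (by omega : 0 < T)
  rw [le_div_iff₀ hT0]
  calc b * T ≤ C * T := by gcongr
    _ ≤ _ := by exact_mod_cast h7

end Pool.Agent.Lib.MP_fed0c4_co.Cub
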